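import Pool.Agent.Helper89.Vol4.Goals

/-! # MP_cd13d2_co, project V47, packet P22 -/

set_option autoImplicit false

namespace Pool.Agent.Helper47.Vol4.PkP22

open MeasureTheory Set Pool.Agent.Helper86.Poly Pool.Agent.Helper89.Vol4

/-- `dt` for two vectors in the plane of the last two coordinates. -/
lemma dt_axis (a b p q : E 4) (a0 : a 0 = 0) (a1 : a 1 = 0) (b0 : b 0 = 0) (b1 : b 1 = 0) :
    dt a b p q = (a 2 * b 3 - a 3 * b 2) * (p 0 * q 1 - p 1 * q 0) := by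
  unfold dt
  rw [a0, a1, b0, b1, Matrix.det_succ_row_zero, Fin.sum_univ_four]
  simp [Matrix.det_fin_three, Fin.succAbove, Fin.lt_def]
  ring

/-- The norm in coordinates. -/
lemma nsq (u : E 4) : ‖u‖ ^ 2 = u 0 ^ 2 + u 1 ^ 2 + u 2 ^ 2 + u 3 ^ 2 := by
  have h2 := EuclideanSpace.norm_sq_eq u
  rw [Fin.sum_univ_four] at h2
  simpa only [Real.norm_eq_abs, sq_abs] using h2

/-- Distances in coordinates. -/
lemma coord (u v : E 4) (h : ‖u - v‖ ≤ 1) :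
    (u 0 - v 0) ^ 2 + (u 1 - v 1) ^ 2 + (u 2 - v 2) ^ 2 + (u 3 - v 3) ^ 2 ≤ 1 := by
  have h2 := nsq (u - v)
  simp only [PiLp.sub_apply] at h2
  have h3 : ‖u - v‖ ^ 2 ≤ 1 := by
    have := norm_nonneg (u - v)
    nlinarith
  rw [h2] at h3
  exact h3

theorem thm (h : G_Q22) (hF : G_FRM4) : G_P22 := by
  intro C hC y hy
  obtain ⟨L, ε, hε, hdt, he0, he1, he'0, he'1, hn1, hn0⟩ := hF (y 1 - y 0) (y 3 - y 2) (y 2 - y 0)
  set x : Fin 7 → E 4 := fun k => L (y k - y 0) with hx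
  have hsub : ∀ i j, x i - x j = L (y i - y j) := by
    intro i j
    simp only [hx]
    rw [← map_sub]
    congr 1
    abel
  have hd : ∀ i j, ‖x i - x j‖ ≤ 1 := by
    intro i j
    rw [hsub, LinearIsometryEquiv.norm_map, ← dist_eq_norm]
    exact hy i j
  have hco : ∀ i j, (x i 0 - x j 0) ^ 2 + (x i 1 - x j 1) ^ 2 + (x i 2 - x j 2) ^ 2 +
      (x i 3 - x j 3) ^ 2 ≤ 1 := fun i j => coord (x i) (x j) (hd i j)
  have hx0 : ∀ m : Fin 4, x 0 m = 0 := by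
    intro m
    simp [hx]
  have e10 : x 1 0 = 0 := he0
  have e11 : x 1 1 = 0 := he1
  have e21 : x 2 1 = 0 := hn1
  have e20 : 0 ≤ x 2 0 := hn0
  have hx32 : L (y 3 - y 2) = x 3 - x 2 := (hsub 3 2).symm
  rw [hx32] at he'0 he'1
  have e30 : x 3 0 = x 2 0 := by
    rw [PiLp.sub_apply] at he'0
    exact sub_eq_zero.1 he'0
  have e31 : x 3 1 = 0 := by
    rw [PiLp.sub_apply] at he'1
    rw [← e21]
    exact sub_eq_zero.1 he'1
  have hl1 : ‖y 1 - y 0‖ ≤ 1 := by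
    rw [← dist_eq_norm]
    exact hy 1 0
  have hl2 : ‖y 3 - y 2‖ ≤ 1 := by
    rw [← dist_eq_norm]
    exact hy 3 2
  have hq1 : ‖y 1 - y 0‖ ^ 2 = x 1 2 ^ 2 + x 1 3 ^ 2 := by
    have h1 : ‖y 1 - y 0‖ = ‖x 1‖ := (LinearIsometryEquiv.norm_map L _).symm
    rw [h1, nsq, e10, e11]
    ring
  have hq2 : ‖y 3 - y 2‖ ^ 2 = (x 3 2 - x 2 2) ^ 2 + (x 3 3 - x 2 3) ^ 2 := by
    have h1 : ‖y 3 - y 2‖ = ‖x 3 - x 2‖ := by
      rw [hsub, LinearIsometryEquiv.norm_map]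
    rw [h1, nsq, he'0, he'1]
    simp only [PiLp.sub_apply]
    ring
  have hz : ∀ k, x k 0 ^ 2 + x k 1 ^ 2 ≤ 1 - ‖y 1 - y 0‖ ^ 2 / 4 := by
    intro k
    have h0 := hco k 0
    have h1 := hco k 1
    rw [hx0, hx0, hx0, hx0] at h0
    rw [e10, e11] at h1
    rw [hq1]
    nlinarith [sq_nonneg (x k 2 - x 1 2 / 2), sq_nonneg (x k 3 - x 1 3 / 2)]
  have hz2 : ∀ k, (x k 0 - x 2 0) ^ 2 + x k 1 ^ 2 ≤ 1 - ‖y 3 - y 2‖ ^ 2 / 4 := by
    intro k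
    have h0 := hco k 2
    have h1 := hco k 3
    rw [e21] at h0
    rw [e30, e31] at h1
    rw [hq2]
    nlinarith [sq_nonneg (x k 2 - (x 2 2 + x 3 2) / 2), sq_nonneg (x k 3 - (x 2 3 + x 3 3) / 2)]
  have hb : x 2 0 ^ 2 ≤ 1 - (‖y 1 - y 0‖ ^ 2 + ‖y 3 - y 2‖ ^ 2) / 4 := by
    have h1 := hco 2 0
    have h2 := hco 3 0
    have h3 := hco 2 1
    have h4 := hco 3 1
    rw [hx0, hx0, hx0, hx0, e21] at h1
    rw [hx0, hx0, hx0, hx0, e30, e31] at h2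
    rw [e10, e11, e21] at h3
    rw [e10, e11, e30, e31] at h4
    rw [hq1, hq2]
    nlinarith [sq_nonneg ((x 2 2 + x 3 2) - x 1 2), sq_nonneg ((x 2 3 + x 3 3) - x 1 3)]
  have hp : ∀ i j, (x i 0 - x j 0) ^ 2 + (x i 1 - x j 1) ^ 2 ≤ 1 := by
    intro i j
    have := hco i j
    nlinarith [sq_nonneg (x i 2 - x j 2), sq_nonneg (x i 3 - x j 3)]
  have hfin := h C hC ‖y 1 - y 0‖ ‖y 3 - y 2‖ (x 2 0) (x 4 0) (x 4 1) (x 5 0) (x 5 1) (x 6 0) (x 6 1)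
    (norm_nonneg _) hl1 (norm_nonneg _) hl2 e20 (hz 4) (hz 5) (hz 6) (hz2 4) (hz2 5) (hz2 6) hb
    (hp 4 5) (hp 4 6) (hp 5 6)
  set Δ : ℝ := x 1 2 * (x 3 3 - x 2 3) - x 1 3 * (x 3 2 - x 2 2) with hΔ
  have hB : ∀ i j, ε * dt (y 1 - y 0) (y 3 - y 2) (y i - y 0) (y j - y 0) =
      Δ * (x i 0 * x j 1 - x i 1 * x j 0) := by
    intro i j
    rw [← hdt, hx32]
    have := dt_axis (x 1) (x 3 - x 2) (x i) (x j) e10 e11 he'0 he'1
    rw [PiLp.sub_apply, PiLp.sub_apply] at this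
    exact this
  have hs : ε * p22 y = Δ * (x 2 0 * x 4 1 + (x 4 0 * x 5 1 - x 4 1 * x 5 0) +
      (x 5 0 * x 6 1 - x 5 1 * x 6 0)) := by
    unfold p22
    rw [mul_add ε, mul_add ε, hB, hB, hB, e21]
    ring
  have hDl : |Δ| ≤ ‖y 1 - y 0‖ * ‖y 3 - y 2‖ := by
    apply abs_le_of_sq_le_sq
    · rw [mul_pow, hq1, hq2, hΔ]
      nlinarith [sq_nonneg (x 1 2 * (x 3 2 - x 2 2) + x 1 3 * (x 3 3 - x 2 3))]
    · positivity
  have ha : |ε| = 1 := by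
    rcases hε with rfl | rfl <;> simp
  have hab : |p22 y| = |Δ| * |x 2 0 * x 4 1 + (x 4 0 * x 5 1 - x 4 1 * x 5 0) +
      (x 5 0 * x 6 1 - x 5 1 * x 6 0)| := by
    rw [← abs_mul, ← hs, abs_mul, ha, one_mul]
  rw [hab]
  exact (mul_le_mul_of_nonneg_right hDl (abs_nonneg _)).trans hfin

end Pool.Agent.Helper47.Vol4.PkP22
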